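import Mathlib
import Pool.Agent.Y642.LZ.I

/-!
# Dickson polynomials of conjugates
-/

set_option autoImplicit false

open Finset Polynomial Module IntermediateField

universe u

namespace Pool.Agent.Y642.TC

open Pool.Agent.H388SL Pool.Agent.H389R3.LR Pool.Agent.H389R3.LP Pool.Agent.Y642.LZ

/-- a polynomial which separates the conjugates separates the zeros in every field -/
theorem inj_transfer {L : Type*} [Field L] [NumberField L] (t : L) (D : ℚ[X])
    (h : Function.Injective fun σ : L →ₐ[ℚ] ℂ => σ (aeval t D))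
    {F : Type*} [Field F] [Algebra ℚ F] {x y : F}
    (hx : aeval x (minpoly ℚ t) = 0) (hy : aeval y (minpoly ℚ t) = 0)
    (hxy : aeval x D = aeval y D) : x = y := by
  have htop : ℚ⟮aeval t D⟯ = ⊤ :=
    (Field.primitive_element_iff_algHom_eq_of_eval' ℚ ℂ (fun x => IsAlgClosed.splits _) _).mpr h
  have hmem : t ∈ ℚ⟮aeval t D⟯ := by rw [htop]; exact mem_top
  have h1 : t ∈ Algebra.adjoin ℚ {aeval t D} := by
    rw [← IntermediateField.adjoin_simple_toSubalgebra_of_isAlgebraic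
      (Algebra.IsAlgebraic.isAlgebraic (R := ℚ) (aeval t D))]
    exact hmem
  rw [Algebra.adjoin_singleton_eq_range_aeval] at h1
  obtain ⟨P, hP⟩ := h1
  have hP' : aeval (aeval t D) P = t := hP
  have key : ∀ z : F, aeval z (minpoly ℚ t) = 0 → aeval (aeval z D) P = z := by
    intro z hz
    have h2 : minpoly ℚ t ∣ P.comp D - X := by
      apply minpoly.dvd
      rw [map_sub, aeval_X, aeval_comp, hP', sub_self]
    obtain ⟨G, hG⟩ := h2
    have h3 := congrArg (aeval z) hG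
    rw [map_sub, map_mul, hz, zero_mul, aeval_X, aeval_comp, sub_eq_zero] at h3
    exact h3
  rw [← key x hx, ← key y hy, hxy]

/-- the Dickson polynomials: `Dk m (x + x⁻¹) = x ^ m + x ^ (-m)` -/
noncomputable def Dk (m : ℕ) : ℤ[X] := dickson 1 1 m

lemma Dk_add_inv {R : Type*} [CommRing R] {x y : R} (h : x * y = 1) (m : ℕ) :
    aeval (x + y) (Dk m) = x ^ m + y ^ m := by
  have h1 := dickson_one_one_eval_add_inv x y h m
  unfold Dk
  rw [← h1, aeval_def, ← eval_map, map_dickson]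
  simp

/-- a number `ζ` with `ζ + ζ⁻¹ = w` -/
lemma exists_zt (w : ℂ) : ∃ ζ : ℂ, ζ ≠ 0 ∧ ζ + ζ⁻¹ = w := by
  have h0 : (X ^ 2 - C w * X + 1 : ℂ[X]).degree ≠ 0 := by
    have : (X ^ 2 - C w * X + 1 : ℂ[X]).degree = 2 := by compute_degree!
    rw [this]; norm_num
  obtain ⟨z, hz⟩ := IsAlgClosed.exists_root _ h0
  rw [IsRoot.def, eval_add, eval_sub, eval_mul, eval_pow, eval_X, eval_C, eval_one] at hz
  have hz0 : z ≠ 0 := by
    rintro rfl
    norm_num at hz
  refine ⟨z, hz0, ?_⟩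
  field_simp
  linear_combination hz

/-- a choice of `ζ` with `ζ + ζ⁻¹ = w` -/
noncomputable def zt (w : ℂ) : ℂ := (exists_zt w).choose

lemma zt_ne (w : ℂ) : zt w ≠ 0 := (exists_zt w).choose_spec.1

lemma zt_add (w : ℂ) : zt w + (zt w)⁻¹ = w := (exists_zt w).choose_spec.2

/-- the logarithm of the larger modulus of `ζ`, `ζ⁻¹` where `ζ + ζ⁻¹ = w` -/
noncomputable def jk (w : ℂ) : ℝ := |Real.log ‖zt w‖|

lemma jk_nonneg (w : ℂ) : 0 ≤ jk w := abs_nonneg _

lemma eq_or_inv {a b : ℂ} (ha : a ≠ 0) (hb : b ≠ 0) (h : a + a⁻¹ = b + b⁻¹) : a = b ∨ a = b⁻¹ := by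
  have h1 : (a - b) * (a * b - 1) = 0 := by
    field_simp at h
    linear_combination h
  rcases mul_eq_zero.mp h1 with h2 | h2
  · exact Or.inl (sub_eq_zero.mp h2)
  · exact Or.inr (eq_inv_of_mul_eq_one_left (sub_eq_zero.mp h2))

lemma jk_eq {ζ : ℂ} (h0 : ζ ≠ 0) : jk (ζ + ζ⁻¹) = |Real.log ‖ζ‖| := by
  unfold jk
  rcases eq_or_inv (zt_ne _) h0 (zt_add (ζ + ζ⁻¹)) with h | h
  · rw [h]
  · rw [h, norm_inv, Real.log_inv, abs_neg]

lemma jk_Dk (y : ℂ) (m : ℕ) : jk (aeval y (Dk m)) = m * jk y := by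
  have h1 : aeval y (Dk m) = zt y ^ m + (zt y ^ m)⁻¹ := by
    conv_lhs => rw [← zt_add y]
    rw [Dk_add_inv (mul_inv_cancel₀ (zt_ne y)), inv_pow]
  rw [h1, jk_eq (pow_ne_zero m (zt_ne y)), norm_pow, Real.log_pow, abs_mul, Nat.abs_cast]
  rfl

lemma jk_two (w : ℂ) (h : w ^ 2 = 4) : jk w = 0 := by
  have h1 : (w - 2) * (w + 2) = 0 := by linear_combination h
  rcases mul_eq_zero.mp h1 with h2 | h2
  · have h3 : w = 1 + (1:ℂ)⁻¹ := by
      rw [inv_one]; linear_combination h2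
    rw [h3, jk_eq one_ne_zero, norm_one, Real.log_one, abs_zero]
  · have h3 : w = (-1) + (-1:ℂ)⁻¹ := by
      rw [inv_neg, inv_one]; linear_combination h2
    rw [h3, jk_eq (by norm_num), norm_neg, norm_one, Real.log_one, abs_zero]

/-- the energy bound for points `ζ + ζ⁻¹` -/
theorem energy_T (Z : Finset ℂ) (hZ : ∀ w ∈ Z, w ^ 2 ≠ 4) :
    2 * (∑ z ∈ Z, ∑ w ∈ Z, (if z = w then 0 else Real.log ‖z - w‖)) +
      ∑ w ∈ Z, Real.log ‖w ^ 2 - 4‖ ≤
    2 * Z.card * Real.log (2 * Z.card) + 2 * (2 * (Z.card : ℝ) - 1) * ∑ w ∈ Z, jk w := by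
  classical
  have hne : ∀ w ∈ Z, ∀ w' ∈ Z, zt w ≠ (zt w')⁻¹ := by
    intro w hw w' hw' h
    have h1 : w = w' := by
      rw [← zt_add w, h, inv_inv, add_comm, zt_add]
    rw [h1] at h
    have h2 : zt w' ^ 2 = 1 := by
      rw [sq]
      nth_rewrite 1 [h]
      exact inv_mul_cancel₀ (zt_ne w')
    apply hZ w' hw'
    rw [← zt_add w']
    have h3 : (zt w')⁻¹ = zt w' := h.symm
    rw [h3]
    linear_combination 4 * h2
  have hinj1 : Function.Injective zt := by
    intro a b h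
    rw [← zt_add a, h, zt_add]
  have hinj2 : Function.Injective fun w => (zt w)⁻¹ := fun a b h => hinj1 (inv_injective h)
  have hdisj : Disjoint (Z.image zt) (Z.image fun w => (zt w)⁻¹) := by
    rw [Finset.disjoint_left]
    intro x hx hx'
    obtain ⟨w, hw, rfl⟩ := Finset.mem_image.mp hx
    obtain ⟨w', hw', h⟩ := Finset.mem_image.mp hx'
    exact hne w hw w' hw' h.symm
  set V := Z.image zt ∪ Z.image fun w => (zt w)⁻¹ with hV
  have hsum : ∀ F : ℂ → ℝ, ∑ z ∈ V, F z = ∑ w ∈ Z, (F (zt w) + F (zt w)⁻¹) := by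
    intro F
    rw [hV, Finset.sum_union hdisj, Finset.sum_image fun a _ b _ h => hinj1 h,
      Finset.sum_image fun a _ b _ h => hinj2 h, Finset.sum_add_distrib]
  have hcard : V.card = 2 * Z.card := by
    rw [hV, Finset.card_union_of_disjoint hdisj, Finset.card_image_of_injective _ hinj1,
      Finset.card_image_of_injective _ hinj2]
    ring
  have h := energy_le V
  have h0 : ∀ z w : ℂ, (if z = w then 0 else Real.log ‖z - w‖) = Real.log ‖z - w‖ := by
    intro z w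
    split_ifs with hzw
    · rw [hzw, sub_self, norm_zero, Real.log_zero]
    · rfl
  simp only [h0] at h ⊢
  rw [hsum] at h
  simp only [hsum] at h
  rw [hcard] at h
  push_cast at h
  have hj : ∀ w : ℂ, Real.log (max 1 ‖zt w‖) + Real.log (max 1 ‖(zt w)⁻¹‖) = jk w := by
    intro w
    unfold jk
    rw [norm_inv]
    have hp : 0 < ‖zt w‖ := norm_pos_iff.mpr (zt_ne w)
    rcases le_total ‖zt w‖ 1 with h1 | h1
    · rw [max_eq_left h1, Real.log_one, max_eq_right (one_le_inv_iff₀.mpr ⟨hp, h1⟩), Real.log_inv,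
        abs_of_nonpos (Real.log_nonpos hp.le h1)]
      ring
    · rw [max_eq_right h1, max_eq_left (inv_le_one_of_one_le₀ h1), Real.log_one,
        abs_of_nonneg (Real.log_nonneg h1)]
      ring
  simp only [hj] at h
  refine le_trans (le_of_eq ?_) h
  have key : ∀ z ∈ Z, ∑ w ∈ Z, 2 * Real.log ‖z - w‖ + Real.log ‖z ^ 2 - 4‖ =
      ∑ w ∈ Z, (Real.log ‖zt z - zt w‖ + Real.log ‖zt z - (zt w)⁻¹‖) +
      ∑ w ∈ Z, (Real.log ‖(zt z)⁻¹ - zt w‖ + Real.log ‖(zt z)⁻¹ - (zt w)⁻¹‖) := by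
    intro z hz
    rw [← Finset.sum_add_distrib, ← Finset.add_sum_erase Z _ hz, ← Finset.add_sum_erase Z _ hz]
    have e1 : (2 * Real.log ‖z - z‖ + Real.log ‖z ^ 2 - 4‖) =
        Real.log ‖zt z - zt z‖ + Real.log ‖zt z - (zt z)⁻¹‖ +
        (Real.log ‖(zt z)⁻¹ - zt z‖ + Real.log ‖(zt z)⁻¹ - (zt z)⁻¹‖) := by
      rw [sub_self, sub_self, sub_self, norm_zero, Real.log_zero, norm_sub_rev (zt z)⁻¹ (zt z)]
      have e2 : z ^ 2 - 4 = (zt z - (zt z)⁻¹) ^ 2 := by
        conv_lhs => rw [← zt_add z]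
        have := mul_inv_cancel₀ (zt_ne z)
        linear_combination 4 * this
      rw [e2, norm_pow, Real.log_pow]
      push_cast
      ring
    have e3 : ∑ w ∈ Z.erase z, 2 * Real.log ‖z - w‖ =
        ∑ w ∈ Z.erase z, (Real.log ‖zt z - zt w‖ + Real.log ‖zt z - (zt w)⁻¹‖ +
          (Real.log ‖(zt z)⁻¹ - zt w‖ + Real.log ‖(zt z)⁻¹ - (zt w)⁻¹‖)) := by
      refine Finset.sum_congr rfl fun w hw => ?_
      obtain ⟨hwz, hw⟩ := Finset.mem_erase.mp hw
      have a0 := zt_ne z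
      have b0 := zt_ne w
      have n1 : ‖zt z - zt w‖ ≠ 0 := by
        rw [Ne, norm_eq_zero, sub_eq_zero]
        exact fun h => hwz (hinj1 h).symm
      have n2 : ‖zt z - (zt w)⁻¹‖ ≠ 0 := by
        rw [Ne, norm_eq_zero, sub_eq_zero]
        exact hne z hz w hw
      have n3 : ‖(zt z)⁻¹ - zt w‖ ≠ 0 := by
        rw [Ne, norm_eq_zero, sub_eq_zero]
        exact fun h => hne w hw z hz h.symm
      have n4 : ‖(zt z)⁻¹ - (zt w)⁻¹‖ ≠ 0 := by
        rw [Ne, norm_eq_zero, sub_eq_zero]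
        exact fun h => hwz (hinj2 h).symm
      rw [← Real.log_mul n1 n2, ← Real.log_mul n3 n4, ← Real.log_mul (mul_ne_zero n1 n2)
        (mul_ne_zero n3 n4), ← norm_mul, ← norm_mul, ← norm_mul]
      have e4 : (zt z - zt w) * (zt z - (zt w)⁻¹) * (((zt z)⁻¹ - zt w) * ((zt z)⁻¹ - (zt w)⁻¹)) =
          (z - w) ^ 2 := by
        conv_rhs => rw [← zt_add z, ← zt_add w]
        field_simp
        ring
      rw [e4, norm_pow, Real.log_pow]
      push_cast
      ring
    rw [e3]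
    linarith
  rw [Finset.mul_sum]
  simp only [Finset.mul_sum]
  rw [← Finset.sum_add_distrib]
  exact Finset.sum_congr rfl key

end Pool.Agent.Y642.TC
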