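import Mathlib
import Pool.Agent.Y642.TC.A

/-!
# The inequality for the trace
-/

set_option autoImplicit false

open Finset Polynomial Module IntermediateField

universe u

namespace Pool.Agent.Y642.TC

open Pool.Agent.H388SL Pool.Agent.H389R3.LR Pool.Agent.H389R3.LP Pool.Agent.Y642.LZ

section

variable {A : Type*} [CommRing A] [IsDomain A]

/-- representatives of all the classes modulo powers of `π` -/
lemma exists_reps_all {π : A} [Finite (A ⧸ Ideal.span {π})] (j : ℕ) :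
    ∃ C : Finset A, C.card ≤ Nat.card (A ⧸ Ideal.span {π}) ^ j ∧
      ∀ s : A, ∃ c ∈ C, π ^ j ∣ s - c := by
  classical
  have : Fintype (A ⧸ Ideal.span {π}) := Fintype.ofFinite _
  have hsurj : Function.Surjective (Ideal.Quotient.mk (Ideal.span {π})) :=
    Ideal.Quotient.mk_surjective
  set g : (A ⧸ Ideal.span {π}) → A := Function.surjInv hsurj with hg
  have hgs : ∀ s : A, π ∣ s - g (Ideal.Quotient.mk (Ideal.span {π}) s) := by
    intro s
    rw [← Ideal.mem_span_singleton, ← Ideal.Quotient.eq]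
    exact (Function.surjInv_eq hsurj _).symm
  induction j with
  | zero => exact ⟨{0}, by simp, fun s => ⟨0, by simp, by simp⟩⟩
  | succ j ih =>
    obtain ⟨C, hC, hCs⟩ := ih
    refine ⟨Finset.image₂ (fun c d => c + π ^ j * d) C (Finset.univ.image g), ?_, ?_⟩
    · refine (Finset.card_image₂_le _ _ _).trans ?_
      have h1 : (Finset.univ.image g).card ≤ Nat.card (A ⧸ Ideal.span {π}) := by
        refine Finset.card_image_le.trans ?_
        rw [Finset.card_univ, Nat.card_eq_fintype_card]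
      rw [pow_succ]
      exact Nat.mul_le_mul hC h1
    · intro s
      obtain ⟨c, hc, b, hb⟩ := hCs s
      refine ⟨c + π ^ j * g (Ideal.Quotient.mk (Ideal.span {π}) b),
        Finset.mem_image₂_of_mem hc (Finset.mem_image_of_mem _ (Finset.mem_univ _)), ?_⟩
      obtain ⟨d, hd⟩ := hgs b
      refine ⟨d, ?_⟩
      have h1 : s - (c + π ^ j * g (Ideal.Quotient.mk (Ideal.span {π}) b)) =
          π ^ j * (b - g (Ideal.Quotient.mk (Ideal.span {π}) b)) := by
        rw [mul_sub, ← hb]; ring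
      rw [h1, hd]
      ring

/-- the number of collisions at all levels, all classes -/
lemma sq_le_collJ_all {π : A} [Finite (A ⧸ Ideal.span {π})] {q : ℕ}
    (hq : q = Nat.card (A ⧸ Ideal.span {π})) (hq2 : 2 ≤ q) (J : ℕ) (T : Finset A) :
    (T.card : ℝ) ^ 2 * ∑ j ∈ Finset.range J, 1 / (q : ℝ) ^ (j + 1) ≤
      collJ π J T + J * T.card := by
  classical
  rw [collJ_eq, Finset.mul_sum]
  push_cast
  have h0 : (J : ℝ) * T.card = ∑ j ∈ Finset.range J, (T.card : ℝ) := by
    rw [Finset.sum_const, Finset.card_range, nsmul_eq_mul]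
  rw [h0, ← Finset.sum_add_distrib]
  refine Finset.sum_le_sum fun j _ => ?_
  obtain ⟨C, hC, hCs⟩ := exists_reps_all (π := π) (j + 1)
  have h1 := sq_le_pairs (ρ := π ^ (j + 1)) (C := C) T (fun s _ => hCs s)
  rw [← hq] at hC
  have hq0 : (0:ℝ) < q := by
    have : (2:ℝ) ≤ q := by exact_mod_cast hq2
    linarith
  have h2 : (C.card : ℝ) ≤ (q : ℝ) ^ (j + 1) := by exact_mod_cast hC
  rw [mul_one_div, div_le_iff₀ (by positivity)]
  refine h1.trans ?_
  rw [mul_comm]
  push_cast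
  exact mul_le_mul_of_nonneg_left h2 (by positivity)

end

/-- the sum of `1 / q ^ (j + 1)` over `j < J` -/
noncomputable def levT (q J : ℕ) : ℝ := ∑ j ∈ Finset.range J, 1 / (q : ℝ) ^ (j + 1)

section

variable {K : Type*} [Field K] [NumberField K]

/-- the sum over the embeddings -/
noncomputable def Lam (t : K) : ℝ := ∑ σ : K →ₐ[ℚ] ℂ, jk (σ t)

lemma Lam_nonneg (t : K) : 0 ≤ Lam t := Finset.sum_nonneg fun _ _ => jk_nonneg _

/-- the numbers `α ^ m + α ^ (-m)` -/
noncomputable def gam (t : K) (m : ℕ) : K := aeval t (Dk m)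

lemma map_gam (σ : K →ₐ[ℚ] ℂ) (t : K) (m : ℕ) : σ (gam t m) = aeval (σ t) (Dk m) := by
  unfold gam
  exact (aeval_algHom_apply (σ.restrictScalars ℤ) t (Dk m)).symm

lemma gam_int {t : K} (ht : IsIntegral ℤ t) (m : ℕ) : IsIntegral ℤ (gam t m) := by
  unfold gam
  exact adjoin_le_integralClosure ht (aeval_mem_adjoin_singleton ℤ t)

lemma jk_gam (σ : K →ₐ[ℚ] ℂ) (t : K) (m : ℕ) : jk (σ (gam t m)) = m * jk (σ t) := by
  rw [map_gam, jk_Dk]

lemma conj_disj_T {t : K} (h0 : 0 < Lam t) {m l : ℕ} (hml : m < l) :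
    conjSet (gam t m) ≠ conjSet (gam t l) := by
  intro h
  have hne : (Finset.univ : Finset (K →ₐ[ℚ] ℂ)).Nonempty := by
    rw [← Finset.card_pos, Finset.card_univ, AlgHom.card]
    exact finrank_pos
  obtain ⟨σ0, _, hmax⟩ := Finset.exists_max_image Finset.univ (fun σ : K →ₐ[ℚ] ℂ => jk (σ t)) hne
  have hgt : 0 < jk (σ0 t) := by
    by_contra hcon
    push Not at hcon
    have h2 : Lam t ≤ 0 := by
      unfold Lam
      exact Finset.sum_nonpos fun σ hσ => (hmax σ hσ).trans hcon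
    linarith
  have h1 : σ0 (gam t l) ∈ conjSet (gam t m) := by
    rw [h, mem_conjSet]
    exact ⟨σ0, rfl⟩
  rw [mem_conjSet] at h1
  obtain ⟨τ, hτ⟩ := h1
  have h2 := congrArg jk hτ
  rw [jk_gam, jk_gam] at h2
  have h3 := hmax τ (Finset.mem_univ _)
  have h4 : (m : ℝ) < l := by exact_mod_cast hml
  have h5 : (m : ℝ) * jk (τ t) ≤ m * jk (σ0 t) := mul_le_mul_of_nonneg_left h3 (Nat.cast_nonneg _)
  nlinarith

lemma conj_disjoint_T {t : K} (h0 : 0 < Lam t) {m l : ℕ} (hml : m ≠ l) :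
    Disjoint (conjSet (gam t m)) (conjSet (gam t l)) := by
  rw [Finset.disjoint_left]
  intro z h1 h2
  have h3 := conjSet_eq_of_mem h1 h2
  rcases lt_or_gt_of_ne hml with h | h
  · exact conj_disj_T h0 h h3
  · exact conj_disj_T h0 h h3.symm

variable {A : Type u} [CommRing A] [IsDomain A] [CharZero A]

lemma gam_mem_aRoots {t : K} (ht : IsIntegral ℤ t) {x : A} (hx : x ∈ aRoots A t) (m : ℕ) :
    aeval x (Dk m) ∈ aRoots A (gam t m) := by
  rw [mem_aRoots ht] at hx
  rw [mem_aRoots (gam_int ht m)]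
  have h1 : aeval t ((minpoly ℤ (gam t m)).comp (Dk m)) = 0 := by
    rw [aeval_comp]
    exact minpoly.aeval ℤ (gam t m)
  obtain ⟨g, hg⟩ := minpoly.isIntegrallyClosed_dvd ht h1
  rw [← aeval_comp, hg, map_mul, hx, zero_mul]

open Classical in
/-- the values of the Dickson polynomials -/
noncomputable def gamSet {A : Type u} [CommRing A] (Z : Finset A) (k : ℕ) : Finset A :=
  (Finset.Icc 1 k ×ˢ Z).image (fun x => aeval x.2 (Dk x.1))

/-- the Dickson polynomials are injective on `Z` -/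
def DkFree {A : Type u} [CommRing A] (Z : Finset A) : Prop :=
  ∀ x ∈ Z, ∀ y ∈ Z, ∀ m : ℕ, 1 ≤ m → aeval x (Dk m) = aeval y (Dk m) → x = y

lemma gamSet_card {t : K} (ht : IsIntegral ℤ t) (h0 : 0 < Lam t) {Z : Finset A}
    (hZ : ∀ x ∈ Z, x ∈ aRoots A t) (hZt : DkFree Z) (k : ℕ) : (gamSet Z k).card = k * Z.card := by
  classical
  have h1 : (Finset.Icc 1 k ×ˢ Z).card = k * Z.card := by
    rw [Finset.card_product, Nat.card_Icc]; simp
  rw [← h1]
  unfold gamSet
  refine Finset.card_image_of_injOn ?_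
  rintro ⟨m, x⟩ hx ⟨l, y⟩ hy hxy
  rw [Finset.mem_coe, Finset.mem_product, Finset.mem_Icc] at hx hy
  dsimp only at hx hy hxy
  have hml : m = l := by
    by_contra hne
    have e1 := gam_mem_aRoots ht (hZ x hx.2) m
    have e2 := gam_mem_aRoots ht (hZ y hy.2) l
    rw [← hxy] at e2
    have e3 := conjSet_eq_of_aRoots (gam_int ht m) (gam_int ht l) e1 e2
    rcases lt_or_gt_of_ne hne with h | h
    · exact conj_disj_T h0 h e3
    · exact conj_disj_T h0 h e3.symm
  subst hml
  rw [hZt x hx.2 y hy.2 m hx.1.1 hxy]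

/-- the contribution of one place -/
lemma place_bound_T {t : K} (ht : IsIntegral ℤ t) (h0 : 0 < Lam t)
    (D : Loc.{u}) {Y : Finset D.A} (hY : ∀ x ∈ Y, x ∈ aRoots D.A t) (hYt : DkFree Y)
    (J k : ℕ) (Q : ℤ[X]) (hQm : Q.Monic)
    (hQ : Q = ∏ m ∈ Finset.Icc 1 k, minpoly ℤ (gam t m)) {r : ℤ}
    (hr : r = resultant Q (derivative Q) Q.natDegree (derivative Q).natDegree) (hr0 : r ≠ 0) :
    ((k : ℝ) ^ 2 * ((Y.card : ℝ) ^ 2 * levT D.q J) -
      k * (J * Y.card)) / D.e * Real.log D.p ≤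
      (padicValInt D.p r : ℝ) * Real.log D.p := by
  classical
  set T := gamSet Y k with hT
  have hTroot : ∀ x ∈ T, (Q.map (Int.castRingHom D.A)).eval x = 0 := by
    intro x hx
    rw [hT] at hx
    unfold gamSet at hx
    rw [Finset.mem_image] at hx
    obtain ⟨⟨m, y⟩, hmy, rfl⟩ := hx
    rw [Finset.mem_product] at hmy
    have h1 := gam_mem_aRoots ht (hY _ hmy.2) m
    rw [mem_aRoots (gam_int ht m)] at h1
    rw [hQ, Polynomial.map_prod, eval_prod]
    refine Finset.prod_eq_zero hmy.1 ?_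
    rw [eval_map]
    exact h1
  have h1 := dvd_res_J D.π J Q hQm T hTroot
  rw [← hr] at h1
  have h2 := val_le D.notUnit D.hp D.he D.assoc hr0 h1
  have h3 := sq_le_collJ_all (π := D.π) (q := D.q) rfl D.two_le_q J T
  have h4 := gamSet_card (A := D.A) ht h0 hY hYt k
  rw [← hT] at h4
  have he0 : (0:ℝ) < D.e := by exact_mod_cast D.he
  have hp1 : (1:ℝ) < D.p := by exact_mod_cast D.hp.one_lt
  have hlog : 0 < Real.log D.p := Real.log_pos hp1
  have h4' : (T.card : ℝ) = k * Y.card := by exact_mod_cast h4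
  rw [h4'] at h3
  have h2' : (collJ D.π J T : ℝ) ≤ D.e * padicValInt D.p r := by exact_mod_cast h2
  refine mul_le_mul_of_nonneg_right ?_ hlog.le
  rw [div_le_iff₀ he0]
  unfold levT
  linarith

theorem main_T {t : K} (ht : IsIntegral ℤ t) (h0 : 0 < Lam t)
    {ι : Type*} (s : Finset ι) (D : ι → Loc.{u}) (hinj : Set.InjOn (fun i => (D i).p) s)
    {Y : ∀ i, Finset (D i).A} (hY : ∀ i ∈ s, ∀ x ∈ Y i, x ∈ aRoots (D i).A t)
    (hYt : ∀ i ∈ s, DkFree (Y i)) (J : ι → ℕ)
    (k : ℕ) (hk : 1 ≤ k) :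
    (k : ℝ) * (∑ i ∈ s, ((Y i).card : ℝ) ^ 2 * levT (D i).q (J i) / (D i).e * Real.log (D i).p) ≤
      ∑ i ∈ s, (J i : ℝ) * (Y i).card / (D i).e * Real.log (D i).p +
      finrank ℚ K * Real.log (2 * (finrank ℚ K * k)) +
      finrank ℚ K * k * (k + 1) * Lam t := by
  classical
  set n := finrank ℚ K with hn
  set Q : ℤ[X] := ∏ m ∈ Finset.Icc 1 k, minpoly ℤ (gam t m) with hQ
  have hQm : Q.Monic := monic_prod_of_monic _ _ fun m _ => minpoly.monic (gam_int ht m)
  set Z : Finset ℂ := (Finset.Icc 1 k).biUnion fun m => conjSet (gam t m) with hZ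
  have hdisj : Set.PairwiseDisjoint (↑(Finset.Icc 1 k)) fun m => conjSet (gam t m) := by
    intro m _ l _ hml
    exact conj_disjoint_T h0 hml
  have hQZ : Q.map (Int.castRingHom ℂ) = ∏ z ∈ Z, (X - C z) := by
    rw [hQ, Polynomial.map_prod, hZ, Finset.prod_biUnion hdisj]
    exact Finset.prod_congr rfl fun m _ => minpolyZ_map (gam_int ht m)
  have hZne : Z.Nonempty := by
    have h1 : (Finset.univ : Finset (K →ₐ[ℚ] ℂ)).Nonempty := by
      rw [← Finset.card_pos, Finset.card_univ, AlgHom.card]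
      exact finrank_pos
    obtain ⟨σ, _⟩ := h1
    refine ⟨σ (gam t 1), ?_⟩
    rw [hZ, Finset.mem_biUnion]
    exact ⟨1, Finset.mem_Icc.mpr ⟨le_rfl, hk⟩, (mem_conjSet).mpr ⟨σ, rfl⟩⟩
  -- the points are different from `2` and `-2`
  have hZ4 : ∀ w ∈ Z, w ^ 2 ≠ 4 := by
    intro w hw h4
    rw [hZ, Finset.mem_biUnion] at hw
    obtain ⟨m, hm, hw⟩ := hw
    have hm1 := (Finset.mem_Icc.mp hm).1
    obtain ⟨σ, hσ⟩ := mem_conjSet.mp hw
    have h5 : gam t m ^ 2 = 4 := by
      have h5' : σ (gam t m ^ 2) = σ 4 := by rw [map_pow, hσ, h4, map_ofNat]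
      exact σ.toRingHom.injective h5'
    have h6 : Lam t = 0 := by
      unfold Lam
      refine Finset.sum_eq_zero fun τ _ => ?_
      have h7 : jk (τ (gam t m)) = 0 := by
        apply jk_two
        rw [← map_pow, h5, map_ofNat]
      rw [jk_gam] at h7
      rcases mul_eq_zero.mp h7 with h8 | h8
      · have : m = 0 := by exact_mod_cast h8
        omega
      · exact h8
    linarith
  obtain ⟨hr0, hdsum⟩ := disc_sum Q Z hQZ
  set r : ℤ := resultant Q (derivative Q) Q.natDegree (derivative Q).natDegree with hr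
  set W := ∑ i ∈ s, (J i : ℝ) * (Y i).card / (D i).e * Real.log (D i).p with hW
  set S := ∑ i ∈ s, ((Y i).card : ℝ) ^ 2 * levT (D i).q (J i) / (D i).e *
    Real.log (D i).p with hS
  have hdisc : (k : ℝ) ^ 2 * S - k * W ≤
      ∑ z ∈ Z, ∑ w ∈ Z, (if z = w then 0 else Real.log ‖z - w‖) := by
    rw [hdsum]
    refine le_trans ?_ (log_ge s (fun i => (D i).p) (fun i _ => (D i).hp) hinj hr0)
    rw [hS, hW, Finset.mul_sum, Finset.mul_sum, ← Finset.sum_sub_distrib]
    refine Finset.sum_le_sum fun i hi => ?_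
    refine le_trans (le_of_eq ?_) (place_bound_T ht h0 (D i) (hY i hi) (hYt i hi) (J i) k
      Q hQm hQ hr hr0)
    ring
  have hmain := energy_T Z hZ4
  -- the product of `w ^ 2 - 4`
  have hfour : 0 ≤ ∑ w ∈ Z, Real.log ‖w ^ 2 - 4‖ := by
    have h1 : ∀ w ∈ Z, ‖w ^ 2 - 4‖ ≠ 0 := by
      intro w hw
      rw [Ne, norm_eq_zero, sub_eq_zero]
      exact hZ4 w hw
    rw [← Real.log_prod h1]
    have h2 : ∏ w ∈ Z, ‖w ^ 2 - 4‖ = |((Q.eval 2 * Q.eval (-2) : ℤ) : ℝ)| := by
      have e1 : ∀ a : ℤ, ((Q.eval a : ℤ) : ℂ) = ∏ z ∈ Z, ((a : ℂ) - z) := by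
        intro a
        have h3 : (Q.map (Int.castRingHom ℂ)).eval (a : ℂ) = ((Q.eval a : ℤ) : ℂ) := by
          rw [eval_map]
          exact eval₂_at_intCast (Int.castRingHom ℂ) a
        rw [← h3, hQZ, eval_prod]
        simp
      rw [← Complex.norm_intCast, Int.cast_mul, e1, e1, ← Finset.prod_mul_distrib, norm_prod]
      refine Finset.prod_congr rfl fun z _ => ?_
      congr 1
      push_cast
      ring
    rw [h2]
    have h3 : (Q.eval 2 * Q.eval (-2) : ℤ) ≠ 0 := by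
      intro h4
      rw [h4, Int.cast_zero, abs_zero] at h2
      exact (Finset.prod_ne_zero_iff.mpr h1) h2
    have h4 : (1:ℤ) ≤ |Q.eval 2 * Q.eval (-2)| := Int.one_le_abs h3
    apply Real.log_nonneg
    exact_mod_cast h4
  -- the number of elements
  have hcard : Z.card ≤ n * k := by
    rw [hZ]
    refine Finset.card_biUnion_le.trans ?_
    refine (Finset.sum_le_sum fun m _ => card_conjSet_le (gam t m)).trans ?_
    rw [Finset.sum_const, Nat.card_Icc, smul_eq_mul, ← hn]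
    simp [mul_comm]
  -- the sizes
  have hlam : ∑ z ∈ Z, jk z ≤ (k : ℝ) * (k + 1) / 2 * Lam t := by
    rw [hZ, Finset.sum_biUnion hdisj]
    have h1 : ∀ m ∈ Finset.Icc 1 k, ∑ z ∈ conjSet (gam t m), jk z ≤ (m : ℝ) * Lam t := by
      intro m hm
      refine (sum_conjSet_le (gam t m) _ fun z => jk_nonneg z).trans ?_
      unfold Lam
      rw [Finset.mul_sum]
      exact le_of_eq (Finset.sum_congr rfl fun σ _ => jk_gam σ t m)
    refine (Finset.sum_le_sum h1).trans ?_
    rw [← Finset.sum_mul]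
    apply le_of_eq
    congr 1
    have h3 : ∀ k : ℕ, ∑ m ∈ Finset.Icc 1 k, (m : ℝ) = (k : ℝ) * (k + 1) / 2 := by
      intro k
      induction k with
      | zero => simp
      | succ k ih =>
        rw [Finset.sum_Icc_succ_top (by omega), ih]
        push_cast
        ring
    exact h3 k
  have hcard' : (Z.card : ℝ) ≤ n * k := by exact_mod_cast hcard
  have hZc : 0 < Z.card := Finset.card_pos.mpr hZne
  have hZ1 : (1:ℝ) ≤ Z.card := by exact_mod_cast hZc
  have hlogle : Real.log (2 * Z.card) ≤ Real.log (2 * (n * k)) :=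
    Real.log_le_log (by positivity) (by linarith)
  have hl0 := Lam_nonneg t
  have hs0 : 0 ≤ ∑ z ∈ Z, jk z := Finset.sum_nonneg fun z _ => jk_nonneg _
  have hlc : 0 ≤ Real.log (2 * Z.card) := Real.log_nonneg (by linarith)
  have hk0 : (0:ℝ) < k := by exact_mod_cast hk
  have h1 : (2 * (Z.card : ℝ) - 1) * (∑ z ∈ Z, jk z) ≤
      2 * (n * k) * ((k : ℝ) * (k + 1) / 2 * Lam t) := by
    exact mul_le_mul (by linarith) hlam hs0 (by positivity)
  have h2 : (Z.card : ℝ) * Real.log (2 * Z.card) ≤ (n * k) * Real.log (2 * (n * k)) := by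
    exact mul_le_mul hcard' hlogle hlc (by positivity)
  have h3 : (k : ℝ) * ((k : ℝ) * S) ≤
      (k : ℝ) * (W + n * Real.log (2 * (n * k)) + n * k * (k + 1) * Lam t) := by
    nlinarith
  exact le_of_mul_le_mul_left h3 hk0

end

end Pool.Agent.Y642.TC
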