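import Mathlib
import Pool.Agent.TH53.SL6
import Pool.Agent.Y642.LZ.J
import Pool.Agent.Y642.TC.B

/-!
# Salem and Pisot numbers with a conjugate `β⁻¹`
-/

set_option autoImplicit false

open Finset Polynomial Module IntermediateField ValuativeRel

universe u

namespace Pool.Agent.Y642.TC

open Pool.Agent.H388SL Pool.Agent.H389R3.LR Pool.Agent.H389R3.LP Pool.Agent.Y642.LZ

section

variable {β : ℝ}

lemma root_map {K : Type*} [Field K] [NumberField K] (σ : K →ₐ[ℚ] ℂ) (x : K) (f : ℤ[X])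
    (h : aeval x f = 0) : aeval (σ x) f = 0 := by
  have h1 := aeval_algHom_apply (σ.restrictScalars ℤ) x f
  have h2 : (σ.restrictScalars ℤ) x = σ x := rfl
  rw [h2, h, map_zero] at h1
  exact h1

lemma mem_conj_of_root {K : Type*} [Field K] [NumberField K] {x : K} (hx : IsIntegral ℤ x) {y : ℂ}
    (hy : aeval y (minpoly ℤ x) = 0) : ∃ σ : K →ₐ[ℚ] ℂ, σ x = y := by
  have h1 : y ∈ (conjSet x : Set ℂ) := by
    rw [conjSet_coe, mem_rootSet]
    refine ⟨minpoly.ne_zero (Algebra.IsIntegral.isIntegral x), ?_⟩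
    rw [minpoly.isIntegrallyClosed_eq_field_fractions' ℚ hx, aeval_map_algebraMap]
    exact hy
  rw [Finset.mem_coe, mem_conjSet] at h1
  exact h1

/-- the conjugates of `β + β⁻¹` -/
lemma conj_trace (hβ0 : β ≠ 0) (hβ : IsIntegral ℤ β)
    (hrec : aeval (β⁻¹) (minpoly ℤ β) = 0) {y : ℂ}
    (hy : aeval y (minpoly ℤ (β + β⁻¹)) = 0) :
    ∃ ζ : ℂ, ζ ≠ 0 ∧ aeval ζ (minpoly ℤ β) = 0 ∧ aeval ζ⁻¹ (minpoly ℤ β) = 0 ∧ ζ + ζ⁻¹ = y := by
  have hzi : IsIntegral ℤ (β : ℂ) := hβ.algebraMap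
  set K := ℚ⟮(β : ℂ)⟯ with hK
  have hfin : FiniteDimensional ℚ K := adjoin.finiteDimensional hzi.tower_top
  have : NumberField K := { to_charZero := inferInstance, to_finiteDimensional := hfin }
  set b : K := AdjoinSimple.gen ℚ (β : ℂ) with hbdef
  have hb : algebraMap K ℂ b = β := AdjoinSimple.algebraMap_gen ℚ _
  have hbi : IsIntegral ℤ b := by
    rw [← hb] at hzi
    exact (isIntegral_algebraMap_iff (algebraMap K ℂ).injective).mp hzi
  have hmb : minpoly ℤ b = minpoly ℤ β := by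
    rw [← minpoly.algebraMap_eq (algebraMap K ℂ).injective b, hb]
    exact minpoly.algebraMap_eq (algebraMap ℝ ℂ).injective β
  have hb0 : b ≠ 0 := by
    intro h
    rw [h, map_zero] at hb
    exact hβ0 (by exact_mod_cast hb.symm)
  have ht : algebraMap K ℂ (b + b⁻¹) = algebraMap ℝ ℂ (β + β⁻¹) := by
    rw [map_add, map_inv₀, hb, map_add, map_inv₀]
    rfl
  have hmt : minpoly ℤ (b + b⁻¹) = minpoly ℤ (β + β⁻¹) := by
    rw [← minpoly.algebraMap_eq (algebraMap K ℂ).injective (b + b⁻¹), ht]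
    exact minpoly.algebraMap_eq (algebraMap ℝ ℂ).injective _
  have hinv : aeval b⁻¹ (minpoly ℤ β) = 0 := by
    apply (algebraMap K ℂ).injective
    rw [← aeval_algebraMap_apply, map_inv₀, hb, map_zero]
    have h1 : ((β : ℂ))⁻¹ = algebraMap ℝ ℂ β⁻¹ := by rw [map_inv₀]; rfl
    rw [h1, aeval_algebraMap_apply, hrec, map_zero]
  have hbinv : IsIntegral ℤ b⁻¹ := ⟨minpoly ℤ β, minpoly.monic hβ, by rw [← aeval_def]; exact hinv⟩
  obtain ⟨σ, hσ⟩ := mem_conj_of_root (hbi.add hbinv) (y := y) (by rw [hmt]; exact hy)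
  refine ⟨σ b, (map_ne_zero σ).mpr hb0, ?_, ?_, ?_⟩
  · exact root_map σ b _ (by rw [← hmb]; exact minpoly.aeval ℤ b)
  · rw [← map_inv₀]
    exact root_map σ _ _ hinv
  · rw [← map_inv₀, ← map_add, hσ]

lemma jk_conj (hβ1 : 1 < β) (hβ : IsIntegral ℤ β)
    (hone : ∀ z : ℂ, aeval z (minpoly ℤ β) = 0 → z ≠ (β : ℂ) → ‖z‖ ≤ 1)
    (hrec : aeval (β⁻¹) (minpoly ℤ β) = 0) {y : ℂ}
    (hy : aeval y (minpoly ℤ (β + β⁻¹)) = 0) (hne : y ≠ (β : ℂ) + (β : ℂ)⁻¹) : jk y = 0 := by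
  obtain ⟨ζ, h0, h1, h2, h3⟩ := conj_trace (by linarith) hβ hrec hy
  have h4 : ζ ≠ (β : ℂ) := by
    rintro rfl
    exact hne h3.symm
  have h5 : ζ⁻¹ ≠ (β : ℂ) := by
    intro h
    apply hne
    rw [← h3, h, ← h, inv_inv, add_comm]
  have h6 := hone ζ h1 h4
  have h7 := hone ζ⁻¹ h2 h5
  rw [norm_inv] at h7
  have h8 : 0 < ‖ζ‖ := norm_pos_iff.mpr h0
  have h9 : 1 ≤ ‖ζ‖ := (inv_le_one₀ h8).mp h7
  have h10 : ‖ζ‖ = 1 := le_antisymm h6 h9
  rw [← h3, jk_eq h0, h10, Real.log_one, abs_zero]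

lemma inj_T (hβ1 : 1 < β) (hβ : IsIntegral ℤ β)
    (hone : ∀ z : ℂ, aeval z (minpoly ℤ β) = 0 → z ≠ (β : ℂ) → ‖z‖ ≤ 1)
    (hrec : aeval (β⁻¹) (minpoly ℤ β) = 0) {y y' : ℂ}
    (hy : aeval y (minpoly ℤ (β + β⁻¹)) = 0) (hy' : aeval y' (minpoly ℤ (β + β⁻¹)) = 0) {m : ℕ}
    (hm : 1 ≤ m) (h : aeval y (Dk m) = aeval y' (Dk m)) : y = y' := by
  obtain ⟨ζ, h0, h1, h2, rfl⟩ := conj_trace (by linarith) hβ hrec hy
  obtain ⟨ξ, g0, g1, g2, rfl⟩ := conj_trace (by linarith) hβ hrec hy'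
  rw [Dk_add_inv (mul_inv_cancel₀ h0), Dk_add_inv (mul_inv_cancel₀ g0), inv_pow, inv_pow] at h
  rcases eq_or_inv (pow_ne_zero m h0) (pow_ne_zero m g0) h with h3 | h3
  · rw [Pool.Agent.TH53.SL.salem_nondeg hβ1 hβ hone h1 g1 (by omega) h3]
  · rw [← inv_pow] at h3
    rw [Pool.Agent.TH53.SL.salem_nondeg hβ1 hβ hone h1 g2 (by omega) h3, inv_inv, add_comm]

/-- a separating polynomial over the integers -/
lemma inj_transfer_int {L : Type*} [Field L] [NumberField L] {t : L} (ht : IsIntegral ℤ t)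
    (D : ℤ[X])
    (h : ∀ y y' : ℂ, aeval y (minpoly ℤ t) = 0 → aeval y' (minpoly ℤ t) = 0 →
      aeval y D = aeval y' D → y = y') (hc : CInj t)
    {F : Type*} [Field F] [CharZero F] {x y : F}
    (hx : aeval x (minpoly ℤ t) = 0) (hy : aeval y (minpoly ℤ t) = 0)
    (hxy : aeval x D = aeval y D) : x = y := by
  refine inj_transfer t (D.map (algebraMap ℤ ℚ)) ?_ (x := x) (y := y) ?_ ?_ ?_
  · intro σ τ hστ
    apply hc
    dsimp only at hστ ⊢
    have e1 : ∀ ρ : L →ₐ[ℚ] ℂ, ρ (aeval t (D.map (algebraMap ℤ ℚ))) = aeval (ρ t) D := by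
      intro ρ
      rw [aeval_map_algebraMap]
      exact (aeval_algHom_apply (ρ.restrictScalars ℤ) t D).symm
    rw [e1, e1] at hστ
    exact h _ _ (root_map σ t _ (minpoly.aeval ℤ t)) (root_map τ t _ (minpoly.aeval ℤ t)) hστ
  · rw [minpoly.isIntegrallyClosed_eq_field_fractions' ℚ ht, aeval_map_algebraMap]; exact hx
  · rw [minpoly.isIntegrallyClosed_eq_field_fractions' ℚ ht, aeval_map_algebraMap]; exact hy
  · rw [aeval_map_algebraMap, aeval_map_algebraMap]; exact hxy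

/-- the sum `S` at places, all residue classes -/
noncomputable def sqT {ι : Type*} (s : Finset ι) (D : ι → Place.{u}) (J R : ι → ℕ) : ℝ :=
  ∑ i ∈ s, (R i : ℝ) ^ 2 * levT (D i).q (J i) / (D i).e * Real.log (D i).p

/-- **The inequality for the trace.** -/
theorem salem_T (hβ1 : 1 < β) (hβ : IsIntegral ℤ β)
    (hone : ∀ z : ℂ, aeval z (minpoly ℤ β) = 0 → z ≠ (β : ℂ) → ‖z‖ ≤ 1)
    (hrec : aeval (β⁻¹) (minpoly ℤ β) = 0)
    {ι : Type*} (s : Finset ι) (D : ι → Place.{u}) (hinj : Set.InjOn (fun i => (D i).p) s)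
    (Y : ∀ i, Finset (D i).K) (hY : ∀ i ∈ s, ∀ x ∈ Y i, aeval x (minpoly ℤ (β + β⁻¹)) = 0)
    (J : ι → ℕ) (k : ℕ) (hk : 1 ≤ k) :
    k * sqT s D J (fun i => (Y i).card) ≤
      linJ s D J (fun i => (Y i).card) +
      (minpoly ℤ (β + β⁻¹)).natDegree * Real.log (2 * ((minpoly ℤ (β + β⁻¹)).natDegree * k)) +
      (minpoly ℤ (β + β⁻¹)).natDegree * k * (k + 1) * Real.log β := by
  classical
  have hβ0 : β ≠ 0 := by linarith
  have hbinv : IsIntegral ℤ β⁻¹ := ⟨minpoly ℤ β, minpoly.monic hβ, by rw [← aeval_def]; exact hrec⟩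
  have hti : IsIntegral ℤ (β + β⁻¹) := hβ.add hbinv
  set g := minpoly ℤ (β + β⁻¹) with hg
  have hgm : g.Monic := minpoly.monic hti
  set z : ℂ := algebraMap ℝ ℂ (β + β⁻¹) with hz
  have hzi : IsIntegral ℤ z := hti.algebraMap
  have hzQ : IsIntegral ℚ z := hzi.tower_top
  have hmin : minpoly ℤ z = g := minpoly.algebraMap_eq (algebraMap ℝ ℂ).injective _
  set L := ℚ⟮z⟯ with hL
  have hfin : FiniteDimensional ℚ L := adjoin.finiteDimensional hzQ
  have : NumberField L := { to_charZero := inferInstance, to_finiteDimensional := hfin }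
  set α : L := AdjoinSimple.gen ℚ z with hα
  have hαz : algebraMap L ℂ α = z := AdjoinSimple.algebraMap_gen ℚ z
  have hαi : IsIntegral ℤ α := by
    rw [← hαz] at hzi
    exact (isIntegral_algebraMap_iff (algebraMap L ℂ).injective).mp hzi
  have hαc : CInj α := by
    intro σ τ h
    apply adjoin_algHom_ext ℚ (s := {z})
    intro x hx
    rw [Set.mem_singleton_iff] at hx
    subst hx
    exact h
  have hminα : minpoly ℤ α = g := by
    rw [← hmin, ← hαz]
    exact (minpoly.algebraMap_eq (algebraMap L ℂ).injective α).symm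
  have hfr : finrank ℚ L = g.natDegree := by
    rw [hL, adjoin.finrank hzQ, minpoly.isIntegrallyClosed_eq_field_fractions' ℚ hzi, hmin]
    exact natDegree_map_eq_of_injective (algebraMap ℤ ℚ).injective_int g
  have hzβ : z = (β : ℂ) + (β : ℂ)⁻¹ := by
    rw [hz, map_add, map_inv₀]
    rfl
  have hβC : (β : ℂ) ≠ 0 := by exact_mod_cast hβ0
  -- the sum over the embeddings
  have hLam : Lam α = Real.log β := by
    set σ0 : L →ₐ[ℚ] ℂ := L.val with hσ0
    have h1 : σ0 α = z := hαz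
    unfold Lam
    rw [Finset.sum_eq_single σ0]
    · rw [h1, hzβ, jk_eq hβC, Complex.norm_real, Real.norm_of_nonneg (by linarith),
        abs_of_nonneg (Real.log_nonneg hβ1.le)]
    · intro σ _ hσ
      apply jk_conj hβ1 hβ hone hrec
      · rw [← hg, ← hminα]
        exact root_map σ α _ (minpoly.aeval ℤ α)
      · rw [← hzβ, ← h1]
        exact fun h => hσ (hαc h)
    · intro h
      exact absurd (Finset.mem_univ _) h
  have hlog : 0 < Real.log β := Real.log_pos hβ1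
  -- the zeros in the local rings
  have hlc : |g.leadingCoeff| = 1 := by rw [hgm.leadingCoeff]; norm_num
  have hex : ∀ i, ∃ Z : Finset 𝒪[(D i).K], i ∈ s → Z.card = (Y i).card ∧
      ∀ x ∈ Z, (x : (D i).K) ∈ Y i := by
    intro i
    by_cases hi : i ∈ s
    · refine ⟨(Y i).attach.image fun x => ⟨x.1, mem_of_zero hlc (hY i hi x.1 x.2)⟩, fun _ => ⟨?_, ?_⟩⟩
      · rw [Finset.card_image_of_injective, Finset.card_attach]
        intro x y hxy
        apply Subtype.ext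
        have h5 := Subtype.ext_iff.mp hxy
        exact h5
      · intro x hx
        rw [Finset.mem_image] at hx
        obtain ⟨y, _, rfl⟩ := hx
        exact y.2
    · exact ⟨∅, fun h => absurd h hi⟩
  choose Z hZ using hex
  have hZ1 : ∀ i ∈ s, ∀ x : 𝒪[(D i).K], x ∈ Z i → aeval x g = 0 := by
    intro i hi x hx
    have h1 := hY i hi _ ((hZ i hi).2 x hx)
    rw [LZ.aeval_sub] at h1
    exact Subtype.val_injective h1
  have hZ2 : ∀ i ∈ s, ∀ x : 𝒪[(D i).K], x ∈ Z i → ∀ y : 𝒪[(D i).K], y ∈ Z i →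
      ∀ m : ℕ, 1 ≤ m → aeval x (Dk m) = aeval y (Dk m) → x = y := by
    intro i hi x hx y hy m hm hxy
    have h1 : (x : (D i).K) = y := by
      refine inj_transfer_int hαi (Dk m) ?_ hαc (x := (x : (D i).K)) (y := (y : (D i).K)) ?_ ?_ ?_
      · intro w w' hw hw' hww
        rw [hminα] at hw hw'
        exact inj_T hβ1 hβ hone hrec hw hw' hm hww
      · rw [hminα]; exact hY i hi _ ((hZ i hi).2 x hx)
      · rw [hminα]; exact hY i hi _ ((hZ i hi).2 y hy)
      · rw [LZ.aeval_sub, LZ.aeval_sub, hxy]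
    exact Subtype.val_injective h1
  have h := main_T hαi (by rw [hLam]; exact hlog) s (fun i => (D i).toLoc) hinj (Y := Z)
    (fun i hi x hx => by rw [mem_aRoots hαi, hminα]; exact hZ1 i hi x hx)
    (fun i hi x hx y hy m hm hxy => hZ2 i hi x hx y hy m hm hxy) J k hk
  rw [hLam, hfr] at h
  have e1 : sqT s D J (fun i => (Y i).card) =
      ∑ i ∈ s, ((Z i).card : ℝ) ^ 2 * levT ((D i).toLoc).q (J i) / ((D i).toLoc).e *
        Real.log ((D i).toLoc).p := by
    unfold sqT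
    refine Finset.sum_congr rfl fun i hi => ?_
    rw [(hZ i hi).1, Place.toLoc_q]
    rfl
  have e2 : linJ s D J (fun i => (Y i).card) =
      ∑ i ∈ s, (J i : ℝ) * (Z i).card / ((D i).toLoc).e * Real.log ((D i).toLoc).p := by
    unfold linJ
    refine Finset.sum_congr rfl fun i hi => ?_
    rw [(hZ i hi).1]
    rfl
  rw [e1, e2]
  exact h

end

end Pool.Agent.Y642.TC
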