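import Mathlib
import Pool.Agent.Y642.TC.C

/-!
# Parry powers of Perron numbers
-/

set_option autoImplicit false

open Finset Polynomial Module IntermediateField ValuativeRel

universe u

namespace Pool.Agent.Y642.TC

open Pool.Agent.H388SL Pool.Agent.H389R3.LR Pool.Agent.H389R3.LP Pool.Agent.Y642.LZ

section

variable {β : ℝ}

/-- the torsion condition is automatic -/
lemma torsion_auto (hβ1 : 1 < β) (hβ : IsIntegral ℤ β)
    (hone : ∀ z : ℂ, aeval z (minpoly ℤ β) = 0 → z ≠ (β : ℂ) → ‖z‖ ≤ 1)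
    {F : Type*} [Field F] [CharZero F] {x y : F} (hx : aeval x (minpoly ℤ β) = 0)
    (hy : aeval y (minpoly ℤ β) = 0) {m : ℕ} (hm : 1 ≤ m) (hxy : x ^ m = y ^ m) : x = y := by
  set z : ℂ := algebraMap ℝ ℂ β with hz
  have hzi : IsIntegral ℤ z := hβ.algebraMap
  have hzQ : IsIntegral ℚ z := hzi.tower_top
  have hmin : minpoly ℤ z = minpoly ℤ β := minpoly.algebraMap_eq (algebraMap ℝ ℂ).injective _
  set L := ℚ⟮z⟯ with hL
  have hfin : FiniteDimensional ℚ L := adjoin.finiteDimensional hzQ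
  have : NumberField L := { to_charZero := inferInstance, to_finiteDimensional := hfin }
  set α : L := AdjoinSimple.gen ℚ z with hα
  have hαz : algebraMap L ℂ α = z := AdjoinSimple.algebraMap_gen ℚ z
  have hαi : IsIntegral ℤ α := by
    rw [← hαz] at hzi
    exact (isIntegral_algebraMap_iff (algebraMap L ℂ).injective).mp hzi
  have hαc : CInj α := by
    intro σ τ h
    apply adjoin_algHom_ext ℚ (s := {z})
    intro x hx
    rw [Set.mem_singleton_iff] at hx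
    subst hx
    exact h
  have hminα : minpoly ℤ α = minpoly ℤ β := by
    rw [← hmin, ← hαz]
    exact (minpoly.algebraMap_eq (algebraMap L ℂ).injective α).symm
  refine inj_transfer_int hαi (X ^ m) ?_ hαc (x := x) (y := y) ?_ ?_ ?_
  · intro w w' hw hw' hww
    rw [hminα] at hw hw'
    rw [map_pow, map_pow, aeval_X, aeval_X] at hww
    exact Pool.Agent.TH53.SL.salem_nondeg hβ1 hβ hone hw hw' (by omega) hww
  · rw [hminα]; exact hx
  · rw [hminα]; exact hy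
  · rw [map_pow, map_pow, aeval_X, aeval_X]; exact hxy

theorem salem_A (hβ1 : 1 < β) (hβ2 : β < 2) (hβ : IsIntegral ℤ β)
    (hone : ∀ z : ℂ, aeval z (minpoly ℤ β) = 0 → z ≠ (β : ℂ) → ‖z‖ ≤ 1)
    {ι : Type*} (s : Finset ι) (D : ι → Place.{u}) (hinj : Set.InjOn (fun i => (D i).p) s)
    (Y : ∀ i, Finset (D i).K) (hY : ∀ i ∈ s, ∀ x ∈ Y i, aeval x (minpoly ℤ β) = 0)
    (J : ι → ℕ) (k : ℕ) (hk : 1 ≤ k) :
    k * sqJ s D J (fun i => (Y i).card) ≤
      linJ s D J (fun i => (Y i).card) +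
      (minpoly ℤ β).natDegree * Real.log ((minpoly ℤ β).natDegree * k) +
      (minpoly ℤ β).natDegree * k * (k + 1) * Real.log β := by
  have hM := Pool.Agent.H389R3.PR.mahler_eq hβ1 hβ hone
  have h := all_sharp (minpoly ℤ β) (minpoly.irreducible hβ) (by rw [hM]; exact hβ1)
    (by rw [hM]; exact hβ2) s D hinj Y hY
    (fun i hi x hx y hy m hm hxy => torsion_auto hβ1 hβ hone (hY i hi x hx) (hY i hi y hy) hm hxy)
    J k hk
  rw [hM] at h
  exact h

theorem salem_A_sharp (hβ1 : 1 < β) (hβ : IsIntegral ℤ β)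
    (hone : ∀ z : ℂ, aeval z (minpoly ℤ β) = 0 → z ≠ (β : ℂ) → ‖z‖ ≤ 1)
    {ι : Type*} (s : Finset ι) (D : ι → Place.{u}) (hinj : Set.InjOn (fun i => (D i).p) s)
    (Y : ∀ i, Finset (D i).K) (hY : ∀ i ∈ s, ∀ x ∈ Y i, aeval x (minpoly ℤ β) = 0)
    (J : ι → ℕ) {S W : ℝ}
    (hS : S = sqJ s D J (fun i => (Y i).card)) (hW : W = linJ s D J (fun i => (Y i).card))
    (h : ((minpoly ℤ β).natDegree : ℝ) ^ 2 * (1 + Real.log (minpoly ℤ β).natDegree) +
      (minpoly ℤ β).natDegree * W ≤ S ^ 2) :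
    1189 / 1000 ≤ β := by
  have hM := Pool.Agent.H389R3.PR.mahler_eq hβ1 hβ hone
  have h := sharp_lehmer (minpoly ℤ β) (minpoly.irreducible hβ) (by rw [hM]; exact hβ1)
    s D hinj Y hY
    (fun i hi x hx y hy m hm hxy => torsion_auto hβ1 hβ hone (hY i hi x hx) (hY i hi y hy) hm hxy)
    J hS hW h
  rw [hM] at h
  exact h

lemma sqT_nonneg {ι : Type*} (s : Finset ι) (D : ι → Place.{u}) (J R : ι → ℕ) :
    0 ≤ sqT s D J R := by
  unfold sqT
  refine Finset.sum_nonneg fun i _ => ?_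
  have h1 : 0 ≤ levT (D i).q (J i) := by
    unfold levT
    exact Finset.sum_nonneg fun j _ => by positivity
  have h2 : 0 ≤ Real.log (D i).p := Real.log_natCast_nonneg _
  positivity

theorem salem_T_sharp (hβ1 : 1 < β) (hβ : IsIntegral ℤ β)
    (hone : ∀ z : ℂ, aeval z (minpoly ℤ β) = 0 → z ≠ (β : ℂ) → ‖z‖ ≤ 1)
    (hrec : aeval (β⁻¹) (minpoly ℤ β) = 0)
    {ι : Type*} (s : Finset ι) (D : ι → Place.{u}) (hinj : Set.InjOn (fun i => (D i).p) s)
    (Y : ∀ i, Finset (D i).K) (hY : ∀ i ∈ s, ∀ x ∈ Y i, aeval x (minpoly ℤ (β + β⁻¹)) = 0)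
    (J : ι → ℕ) {S W : ℝ}
    (hS : S = sqT s D J (fun i => (Y i).card)) (hW : W = linJ s D J (fun i => (Y i).card))
    (h : ((minpoly ℤ (β + β⁻¹)).natDegree : ℝ) ^ 2 *
      (1 + Real.log (2 * (minpoly ℤ (β + β⁻¹)).natDegree)) +
      (minpoly ℤ (β + β⁻¹)).natDegree * W ≤ S ^ 2) :
    1189 / 1000 ≤ β := by
  by_contra hcon
  push Not at hcon
  have hbinv : IsIntegral ℤ β⁻¹ := ⟨minpoly ℤ β, minpoly.monic hβ, by rw [← aeval_def]; exact hrec⟩
  have hti : IsIntegral ℤ (β + β⁻¹) := hβ.add hbinv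
  have hn1 : (1:ℝ) ≤ (minpoly ℤ (β + β⁻¹)).natDegree := by
    exact_mod_cast minpoly.natDegree_pos hti
  have hall := fun k hk => salem_T hβ1 hβ hone hrec s D hinj Y hY J k hk
  rw [← hS, ← hW] at hall
  set n : ℝ := ((minpoly ℤ (β + β⁻¹)).natDegree : ℝ) with hn
  have hn0 : 0 < n := by linarith
  have hlogn : 0 ≤ Real.log (2 * n) := Real.log_nonneg (by linarith)
  have hW0 : 0 ≤ W := hW ▸ linJ_nonneg s D J _
  have hS0 : 0 ≤ S := hS ▸ sqT_nonneg s D J _
  have hM0 : 0 < β := by linarith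
  have hlam : Real.log β < 174 / 1000 := by
    rw [Real.log_lt_iff_lt_exp hM0]
    have h1 := Real.quadratic_le_exp_of_nonneg (show (0:ℝ) ≤ 174 / 1000 by norm_num)
    norm_num at h1 ⊢
    linarith
  set t : ℝ := S / n with ht
  have hSt : S = n * t := by rw [ht]; field_simp
  have ht0 : 0 ≤ t := by rw [ht]; positivity
  rw [hSt] at h
  have h1 : n * (1 + Real.log (2 * n)) + W ≤ n * t ^ 2 := by
    have h2 : n * (n * (1 + Real.log (2 * n)) + W) ≤ n * (n * t ^ 2) := by nlinarith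
    exact le_of_mul_le_mul_left h2 hn0
  have ht1 : 1 ≤ t := by
    have h2 : n * 1 ≤ n * t ^ 2 := by nlinarith
    have h3 : 1 ≤ t ^ 2 := le_of_mul_le_mul_left h2 hn0
    nlinarith
  obtain ⟨k, hk1, hk⟩ := choice_sharp ht1
  have h4 := hall k hk1
  rw [hSt] at h4
  have hk0 : (0:ℝ) < k := by exact_mod_cast hk1
  have e1 : Real.log (2 * (n * k)) = Real.log (2 * n) + Real.log k := by
    rw [← mul_assoc, Real.log_mul (by positivity) hk0.ne']
  rw [e1] at h4
  have h5 : n * k * (k + 1) * Real.log β < n * k * (k + 1) * (174 / 1000) :=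
    mul_lt_mul_of_pos_left hlam (by positivity)
  have h6 := mul_le_mul_of_nonneg_left hk hn0.le
  nlinarith

end

lemma lehmer_root {τ : ℝ} (h1 : 1 < τ)
    (h : τ ^ 10 + τ ^ 9 - τ ^ 7 - τ ^ 6 - τ ^ 5 - τ ^ 4 - τ ^ 3 + τ + 1 = 0) :
    τ < 1189 / 1000 := by
  by_contra hcon
  push Not at hcon
  obtain ⟨y, rfl⟩ : ∃ y : ℝ, τ = 1189 / 1000 + y := ⟨τ - 1189 / 1000, by ring⟩
  have hy : 0 ≤ y := by linarith
  ring_nf at h
  nlinarith [pow_nonneg hy 2, pow_nonneg hy 3, pow_nonneg hy 4, pow_nonneg hy 5, pow_nonneg hy 6,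
    pow_nonneg hy 7, pow_nonneg hy 8, pow_nonneg hy 9, pow_nonneg hy 10]

end Pool.Agent.Y642.TC
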